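import Pool.Agent.helper68.GB.Spec

/-!
# Project GB (MP_baa4d7_al), row EXZ: extension of functions on `L ⊓ cz P`
-/

set_option autoImplicit false

namespace Pool.Agent.GB

open Pool.Agent.helper58.DC Pool.Agent.DI Pool.Agent.GR Pool.Agent.OB Pool.Agent.DR Pool.Agent.FI Pool.Agent.FI3 Pool.Agent.FI4 Pool.Agent.LE Pool.Agent.BR

section

variable {G : Type} [Group G]

theorem EXZ_mz {P : Subgroup G} {x : G} : x ∈ cz P ↔ ∀ r ∈ P, r * x = x * r := by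
  rw [Subgroup.mem_centralizer_iff]
  exact Iff.rfl

theorem EXZ_mC {L : Subgroup G} {x y : G} : x ∈ Cz L y ↔ x ∈ L ∧ y * x = x * y := by
  unfold Cz
  rw [Subgroup.mem_inf, Subgroup.mem_centralizer_iff]
  constructor
  · rintro ⟨h1, h2⟩
    exact ⟨h1, h2 y rfl⟩
  · rintro ⟨h1, h2⟩
    refine ⟨h1, ?_⟩
    intro h hh
    rw [Set.mem_singleton_iff] at hh
    rw [hh]
    exact h2

/-- the normaliser condition in a `p`-subgroup -/
theorem EXZ_norm [Finite G] (p : ℕ) [Fact p.Prime] (P S : Subgroup G) (hS : IsPGroup p S) (h : P < S) : P < S ⊓ nz P := by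
  have hPS : P ≤ S := h.le
  refine lt_of_le_of_ne (le_inf hPS Subgroup.le_normalizer) ?_
  intro he
  have hnil : Group.IsNilpotent S := hS.isNilpotent
  have hnc : NormalizerCondition S := Group.normalizerCondition_of_isNilpotent
  have h1 : P.subgroupOf S < ⊤ := by
    rw [lt_top_iff_ne_top]
    intro h2
    rw [Subgroup.subgroupOf_eq_top] at h2
    exact absurd h2 (not_le_of_gt h)
  obtain ⟨s, hs1, hs2⟩ := SetLike.exists_of_lt (hnc _ h1)
  apply hs2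
  rw [Subgroup.mem_subgroupOf]
  rw [he]
  refine ⟨s.2, ?_⟩
  show (s : G) ∈ Subgroup.normalizer (P : Set G)
  rw [Subgroup.mem_normalizer_iff]
  intro y
  rw [Subgroup.mem_normalizer_iff] at hs1
  constructor
  · intro hy
    exact (Subgroup.mem_subgroupOf.1 ((hs1 ⟨y, hPS hy⟩).1 (Subgroup.mem_subgroupOf.2 hy)))
  · intro hy
    have hyS : y ∈ S := by
      have h3 := S.mul_mem (S.mul_mem (S.inv_mem s.2) (hPS hy)) s.2
      have h4 : (s : G)⁻¹ * ((s : G) * y * (s : G)⁻¹) * s = y := by group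
      rwa [h4] at h3
    exact (Subgroup.mem_subgroupOf.1 ((hs1 ⟨y, hyS⟩).2 (Subgroup.mem_subgroupOf.2 hy)))

end

theorem EXZ (hSYL : SYL_stmt) (hNCJ : NCJ_stmt) : EXZ_stmt := by
  intro p M hS G _ _ L P hP hPL a hai ha0 hinv hR
  classical
  have : Fact p.Prime := ⟨hS.pr⟩
  obtain ⟨hs1, hs2, -, -, -, hs6, -⟩ := hSYL p G
  obtain ⟨gd, hgd⟩ : ∃ gd : G → Prop, gd = fun y => y ∈ L ∧ y ∈ cz P ∧ Nat.card P = pp p (Cz L y) := ⟨_, rfl⟩
  have hPC : ∀ y, y ∈ cz P → P ≤ Cz L y := by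
    intro y hy r hr
    rw [EXZ_mC]
    exact ⟨hPL hr, ((EXZ_mz.1 hy) r hr).symm⟩
  have hW : ∀ y y', gd y → gd y' → (∃ l ∈ L, l * y * l⁻¹ = y') → a y' = a y := by
    rintro y y' hy hy' ⟨l, hl, e⟩
    rw [hgd] at hy hy'
    obtain ⟨n, hn1, hn2, e2⟩ := hNCJ p G L P y hP (hPC y hy.2.1) hy.2.2 l hl (by rw [e]; exact hy'.2.1)
    rw [← e, ← e2]
    exact hinv n hn1 hn2 y
  have htr : ∀ x y y', (∃ l ∈ L, l * x * l⁻¹ = y) → (∃ l ∈ L, l * x * l⁻¹ = y') → ∃ l ∈ L, l * y * l⁻¹ = y' := by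
    rintro x y y' ⟨l, hl, rfl⟩ ⟨l', hl', rfl⟩
    refine ⟨l' * l⁻¹, L.mul_mem hl' (L.inv_mem hl), ?_⟩
    group
  obtain ⟨z, hz⟩ : ∃ z : G → ℂ, z = fun x => if h : ∃ y, gd y ∧ ∃ l ∈ L, l * x * l⁻¹ = y then a h.choose else 0 := ⟨_, rfl⟩
  have hz1 : ∀ x y, gd y → (∃ l ∈ L, l * x * l⁻¹ = y) → z x = a y := by
    intro x y hy hl
    have h : ∃ y, gd y ∧ ∃ l ∈ L, l * x * l⁻¹ = y := ⟨y, hy, hl⟩
    rw [hz]
    dsimp only
    rw [dif_pos h]
    exact hW y _ hy h.choose_spec.1 (htr x y _ hl h.choose_spec.2)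
  have hz2 : ∀ x, ¬ (∃ y, gd y ∧ ∃ l ∈ L, l * x * l⁻¹ = y) → z x = 0 := by
    intro x h
    rw [hz]
    dsimp only
    rw [dif_neg h]
  have hcard : ∀ x, (∃ y, gd y ∧ ∃ l ∈ L, l * x * l⁻¹ = y) → Nat.card P = pp p (Cz L x) := by
    rintro x ⟨y, hy, l, hl, e⟩
    rw [hgd] at hy
    rw [hy.2.2, ← e]
    exact (hs6 L x l hl).2
  refine ⟨z, ⟨?_, ?_⟩, ?_, ?_, ?_⟩
  · intro h hh x
    by_cases hx : ∃ y, gd y ∧ ∃ l ∈ L, l * x * l⁻¹ = y
    · obtain ⟨y, hy, l, hl, e⟩ := hx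
      rw [hz1 x y hy ⟨l, hl, e⟩, hz1 (h * x * h⁻¹) y hy ⟨l * h⁻¹, L.mul_mem hl (L.inv_mem hh), by rw [← e]; group⟩]
    · rw [hz2 x hx, hz2]
      rintro ⟨y, hy, l, hl, e⟩
      exact hx ⟨y, hy, l * h, L.mul_mem hl hh, by rw [← e]; group⟩
  · intro x hx
    apply hz2
    rintro ⟨y, hy, l, hl, e⟩
    rw [hgd] at hy
    apply hx
    have h1 := L.mul_mem (L.mul_mem (L.inv_mem hl) hy.1) hl
    rw [← e] at h1
    have h2 : l⁻¹ * (l * x * l⁻¹) * l = x := by group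
    rwa [h2] at h1
  · intro x
    by_cases hx : ∃ y, gd y ∧ ∃ l ∈ L, l * x * l⁻¹ = y
    · obtain ⟨y, hy, hl⟩ := hx
      rw [hz1 x y hy hl]
      exact hai y
    · rw [hz2 x hx]
      exact IntAt.zero hS
  · intro x hx
    by_cases hg : gd x
    · rw [hz1 x x hg ⟨1, L.one_mem, by group⟩, sub_self]
      exact InM.zero hS
    · have hne : Nat.card P ≠ pp p (Cz L x) := by
        intro h
        apply hg
        rw [hgd]
        exact ⟨hx.1, hx.2, h⟩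
      rw [hz2 x (fun h => hne (hcard x h)), zero_sub]
      apply InM.neg
      have hPx := hPC x hx.2
      obtain ⟨S, hPS, hSC, hSp, hSc⟩ := hs2 P (Cz L x) hP hPx
      have hlt : P < S := by
        refine lt_of_le_of_ne hPS ?_
        intro he
        apply hne
        rw [← hSc, he]
      have hSL : S ≤ L := fun s hs => (EXZ_mC.1 (hSC hs)).1
      refine hR (S ⊓ nz P) (hSp.to_le inf_le_left) (EXZ_norm p P S hSp hlt) (inf_le_left.trans hSL) inf_le_right x ?_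
      rw [EXZ_mz]
      intro r hr
      exact ((EXZ_mC.1 (hSC hr.1)).2).symm
  · intro x hx
    by_contra h
    exact hx (hz2 x fun h' => h (hcard x h'))

end Pool.Agent.GB
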