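import Pool.Agent.helper70.GB.SpecF
import Pool.Agent.helper42.GB.LC
import Pool.Agent.helper65.GB.GP

/-!
# SX: stable range of `R(X)` (project gb)
-/

open Polynomial

namespace GB

universe u

theorem SX : SX_stmt.{u} := by
  intro R _ _ d hd k hk
  haveI : IsNoetherianRing (RX R) :=
    IsLocalization.isNoetherianRing (monicSub R) (RX R) inferInstance
  have h1 : ringKrullDim (RX R) ≤ ringKrullDim R :=
    LC_dim_localization (monicSub R) (fun f hf => hf) (RX R)
  refine SR_of_dim (lt_of_le_of_lt (h1.trans hd) ?_)
  have h2 : d < k := by omega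
  exact_mod_cast h2

end GB
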